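import Pool.Agent.Helper52.C2.Goals
import Pool.Agent.Helper56.Arb.Seqmul

/-!
Packet C2-SUPP (MP_2b0227_gt): the polynomials of all terms are positive exactly on intervals.
-/

namespace Pool.Agent.Helper39.C2

open Pool.Agent.Helper37.Arb Pool.Agent.Helper52.C2 Polynomial

/-- positive exactly on the interval `[p, q]` -/
structure PI (f : ℤ → ℝ) (p q : ℤ) : Prop where
  le : p ≤ q
  zero : ∀ s, s < p ∨ q < s → f s = 0
  pos : ∀ s, p ≤ s → s ≤ q → 0 < f s

theorem PI.nonneg {f : ℤ → ℝ} {p q : ℤ} (h : PI f p q) (s : ℤ) : 0 ≤ f s := by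
  by_cases hs : s < p ∨ q < s
  · rw [h.zero s hs]
  · push Not at hs
    exact (h.pos s hs.1 hs.2).le

theorem PI.conv {f g : ℤ → ℝ} {p q p' q' : ℤ} (hf : PI f p q) (hg : PI g p' q')
    (ff : (Function.support f).Finite) : PI (conv f g) (p + p') (q + q') := by
  have h1 := hf.le
  have h2 := hg.le
  refine ⟨by omega, ?_, ?_⟩
  · intro s hs
    refine conv_zero' fun i => ?_
    by_cases h : i < p ∨ q < i
    · rw [hf.zero i h, zero_mul]
    · rw [hg.zero (s - i) (by omega), mul_zero]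
  · intro s hs1 hs2
    refine conv_pos' ff hf.nonneg hg.nonneg (i := max p (s - q')) (hf.pos _ ?_ ?_)
      (hg.pos _ ?_ ?_)
    · exact le_max_left _ _
    · exact max_le h1 (by omega)
    · have : max p (s - q') ≤ s - p' := max_le (by omega) (by omega)
      omega
    · have : s - q' ≤ max p (s - q') := le_max_right _ _
      omega

theorem PI.add {f g : ℤ → ℝ} {p q p' q' : ℤ} (hf : PI f p q) (hg : PI g p' q')
    (h1 : p' ≤ q + 1) (h2 : p ≤ q' + 1) {P Q : ℤ} (hP : P = min p p') (hQ : Q = max q q') :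
    PI (f + g) P Q := by
  have l1 := hf.le
  have l2 := hg.le
  refine ⟨by omega, ?_, ?_⟩
  · intro s hs
    rw [Pi.add_apply, hf.zero s (by omega), hg.zero s (by omega), add_zero]
  · intro s hs1 hs2
    rw [Pi.add_apply]
    have n1 := hf.nonneg s
    have n2 := hg.nonneg s
    by_cases h : p ≤ s ∧ s ≤ q
    · have := hf.pos s h.1 h.2
      linarith
    · have := hg.pos s (by omega) (by omega)
      linarith

theorem PI.congr {f : ℤ → ℝ} {p q p' q' : ℤ} (h : PI f p q) (h1 : p = p') (h2 : q = q') :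
    PI f p' q' := by
  subst h1 h2
  exact h

theorem pi_mul {a b : ℤ[X]} {p q p' q' P Q : ℤ} (ha : PI (seq a) p q) (hb : PI (seq b) p' q')
    (hP : P = p + p') (hQ : Q = q + q') : PI (seq (a * b)) P Q := by
  rw [Pool.Agent.Helper56.Arb.seq_mul]
  subst hP hQ
  exact ha.conv hb (Pool.Agent.Helper56.Arb.seq_finite a)

theorem pi_add {a b : ℤ[X]} {p q p' q' P Q : ℤ} (ha : PI (seq a) p q) (hb : PI (seq b) p' q')
    (h1 : p' ≤ q + 1) (h2 : p ≤ q' + 1) (hP : P = min p p') (hQ : Q = max q q') :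
    PI (seq (a + b)) P Q := by
  rw [Pool.Agent.Helper56.Arb.seqMul.2.2.1]
  exact ha.add hb h1 h2 hP hQ

theorem pi_X {a : ℤ[X]} {p q P Q : ℤ} (ha : PI (seq a) p q) (hP : P = p + 1) (hQ : Q = q + 1) :
    PI (seq (X * a)) P Q := by
  have e := Pool.Agent.Helper56.Arb.seqMul.2.2.2.1 a
  have := ha.le
  subst hP hQ
  refine ⟨by omega, ?_, ?_⟩
  · intro s hs
    rw [e]
    exact ha.zero _ (by omega)
  · intro s h1 h2
    rw [e]
    exact ha.pos _ (by omega) (by omega)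

theorem pi_one : PI (seq 1) 0 0 := by
  have e := Pool.Agent.Helper56.Arb.seqMul.2.2.2.2
  refine ⟨le_refl _, ?_, ?_⟩
  · intro s hs
    rw [e, if_neg (by omega)]
  · intro s h1 h2
    rw [e, if_pos (by omega)]
    norm_num

/-- induction statement -/
def Two : ∀ {s : Bool}, Tangle s → Prop
  | true, t => ∃ k m : ℤ, k ≤ t.data.N - 1 - k ∧ k ≤ m ∧ m ≤ t.data.N - k ∧
      PI (seq t.data.b) k (t.data.N - 1 - k) ∧ PI (seq t.data.L) k m ∧
      PI (seq t.data.R) (t.data.N - m) (t.data.N - k)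
  | false, t => ∃ k k' : ℤ, (k' = k ∨ k' = k + 1) ∧ k ≤ t.data.N - 1 - k ∧ k' ≤ t.data.N - k' ∧
      PI (seq t.data.b) k (t.data.N - 1 - k) ∧ PI (seq t.data.L) k' (t.data.N - k')

theorem two : ∀ {s : Bool} (t : Tangle s), Two t := by
  intro s t
  induction t with
  | cross =>
    refine ⟨0, 0, ?_, le_refl _, ?_, ?_, ?_, ?_⟩
    · simp [Tangle.data]
    · simp [Tangle.data]
    · show PI (seq 1) 0 (1 - 1 - 0)
      exact pi_one.congr rfl (by norm_num)
    · exact pi_one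
    · show PI (seq X) (1 - 0) (1 - 0)
      rw [← mul_one (X : ℤ[X])]
      exact pi_X pi_one (by norm_num) (by norm_num)
  | stack S T ihS ihT =>
    obtain ⟨k₁, m₁, a1, a2, a3, b1, L1, R1⟩ := ihS
    obtain ⟨k₂, m₂, c1, c2, c3, b2, L2, R2⟩ := ihT
    have eN : (Tangle.stack S T).data.N = S.data.N + T.data.N := rfl
    refine ⟨k₁ + k₂, m₁ + m₂, by omega, by omega, by omega, ?_, ?_, ?_⟩
    · show PI (seq (S.data.R * T.data.b + S.data.b * T.data.L)) _ _
      refine pi_add (pi_mul R1 b2 rfl rfl) (pi_mul b1 L2 rfl rfl) ?_ ?_ ?_ ?_ <;> omega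
    · exact pi_mul L1 L2 rfl rfl
    · exact pi_mul R1 R2 (by omega) (by omega)
  | beside P T ihP ihT =>
    obtain ⟨k₁, k₁', a0, a1, a2, b1, L1⟩ := ihP
    obtain ⟨k₂, m₂, c1, c2, c3, b2, L2, R2⟩ := ihT
    have eN : (Tangle.beside P T).data.N = P.data.N - 1 + T.data.N := rfl
    refine ⟨k₁ + k₂, max (P.data.N - 1 - k₁ + m₂) (P.data.N - k₁' + (T.data.N - 1 - k₂)),
      by omega, by omega, by omega, ?_, ?_, ?_⟩
    · exact pi_mul b1 b2 rfl (by omega)
    · show PI (seq (P.data.b * T.data.L + P.data.L * T.data.b)) _ _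
      refine pi_add (pi_mul b1 L2 rfl rfl) (pi_mul L1 b2 rfl rfl) ?_ ?_ ?_ ?_ <;> omega
    · show PI (seq (P.data.b * T.data.R + P.data.L * T.data.b)) _ _
      refine pi_add (pi_mul b1 R2 rfl rfl) (pi_mul L1 b2 rfl rfl) ?_ ?_ ?_ ?_ <;> omega
  | flip T ih => exact ih
  | opposite S T ihS ihT =>
    obtain ⟨k₁, m₁, a1, a2, a3, b1, L1, R1⟩ := ihS
    obtain ⟨k₂, m₂, c1, c2, c3, b2, L2, R2⟩ := ihT
    have eN : (Tangle.opposite S T).data.N = S.data.N + T.data.N - 1 := rfl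
    refine ⟨k₁ + k₂, k₁ + k₂, Or.inl rfl, by omega, by omega, ?_, ?_⟩
    · exact pi_mul b1 b2 rfl (by omega)
    · show PI (seq (S.data.R * T.data.b + S.data.b * T.data.L)) _ _
      refine pi_add (pi_mul R1 b2 rfl rfl) (pi_mul b1 L2 rfl rfl) ?_ ?_ ?_ ?_ <;> omega
  | sum P Q ihP ihQ =>
    obtain ⟨k₁, k₁', a0, a1, a2, b1, L1⟩ := ihP
    obtain ⟨k₂, k₂', c0, c1, c2, b2, L2⟩ := ihQ
    have eN : (Tangle.sum P Q).data.N = P.data.N + Q.data.N - 1 := rfl
    refine ⟨k₁ + k₂, min (k₁' + k₂) (k₁ + k₂'), by omega, by omega, by omega, ?_, ?_⟩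
    · exact pi_mul b1 b2 rfl (by omega)
    · show PI (seq (P.data.L * Q.data.b + P.data.b * Q.data.L)) _ _
      refine pi_add (pi_mul L1 b2 rfl rfl) (pi_mul b1 L2 rfl rfl) ?_ ?_ ?_ ?_ <;> omega
  | turn P ih =>
    obtain ⟨k, k', a0, a1, a2, b1, L1⟩ := ih
    have eN : (Tangle.turn P).data.N = P.data.N + 1 := rfl
    refine ⟨k', k + 1, by omega, by omega, by omega, ?_, ?_⟩
    · exact L1.congr rfl (by omega)
    · exact pi_X b1 rfl (by omega)

/-- Packet C2-SUPP. -/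
theorem supp : GoalSupp := by
  refine ⟨fun T => ?_, fun P => ?_⟩
  · obtain ⟨k, m, h1, _, _, hb, _, _⟩ := two T
    exact ⟨k, h1, hb.zero, hb.pos⟩
  · obtain ⟨k, k', _, h1, _, hb, _⟩ := two P
    exact ⟨k, h1, hb.zero, hb.pos⟩

end Pool.Agent.Helper39.C2
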